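import Pool.Agent.Lib.MP_688fd0_co.LIN.Iface2

/-!
ENDC (Lemma 8, cycle form): assembly of the one-dimensional end.  Copy of END (helper68) with RING and CHAINC.
-/

set_option autoImplicit false
set_option linter.unusedSectionVars false

namespace Pool.Agent.Lib.MP_688fd0_co.LIN.H61

open Classical
open Pool.Agent.Lib.MP_688fd0_co.LP (IsP Conn Cyc Symm cay)
open Pool.Agent.Lib.MP_688fd0_co.LIN

universe u

variable {V : Type u} [Fintype V]

lemma reach_iso {G : SimpleGraph V} (φ : G ≃g G) (hc : G.Connected) (x y : V) :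
    G.dist (φ x) (φ y) = G.dist x y := by
  have key : ∀ (ψ : G ≃g G) (x y : V), G.dist (ψ x) (ψ y) ≤ G.dist x y := by
    intro ψ x y
    obtain ⟨p, hp⟩ := (hc.preconnected x y).exists_walk_length_eq_dist
    rw [← hp, ← SimpleGraph.Walk.length_map ψ.toHom p]
    exact SimpleGraph.dist_le _
  refine le_antisymm (key φ x y) ?_
  have := key φ.symm (φ x) (φ y)
  simpa using this

/-- averaging over the automorphisms -/
lemma average {G : SimpleGraph V} (hG : VT G) (A B : Finset V) :
    ∃ φ : G ≃g G, A.card * B.card ≤ Fintype.card V * (A.filter (fun x => φ x ∈ B)).card := by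
  have hfin : Finite (G ≃g G) :=
    Finite.of_injective (fun φ : G ≃g G => φ.toEquiv) (fun φ ψ h => by
      ext x
      exact congrArg (fun e : V ≃ V => e x) h)
  let _ : Fintype (G ≃g G) := Fintype.ofFinite _
  -- the number of automorphisms with `φ x = y`
  let N : V → V → ℕ := fun x y => (Finset.univ.filter (fun φ : G ≃g G => φ x = y)).card
  have hN : ∀ x y y', N x y ≤ N x y' := by
    intro x y y'
    obtain ⟨ψ, hψ⟩ := hG.tr y y'
    refine Finset.card_le_card_of_injOn (fun φ => φ.trans ψ) ?_ ?_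
    · intro φ hφ
      simp only [Finset.coe_filter, Finset.mem_univ, true_and, Set.mem_ofPred_eq] at hφ ⊢
      change ψ (φ x) = y'
      rw [hφ, hψ]
    · intro φ _ φ' _ h
      ext z
      have h1 : (φ.trans ψ) z = (φ'.trans ψ) z := by
        have := congrArg (fun e : G ≃g G => e z) h
        exact this
      exact ψ.injective h1
  have hsum : ∀ x y, Fintype.card V * N x y = Fintype.card (G ≃g G) := by
    intro x y
    have h1 : (Finset.univ : Finset (G ≃g G)).card =
        ∑ z ∈ (Finset.univ : Finset V), (Finset.univ.filter (fun φ : G ≃g G => φ x = z)).card :=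
      Finset.card_eq_sum_card_fiberwise fun _ _ => Finset.mem_coe.2 (Finset.mem_univ _)
    rw [Finset.card_univ] at h1
    rw [h1, Finset.sum_congr rfl (fun z _ => le_antisymm (hN x z y) (hN x y z)), Finset.sum_const,
      Finset.card_univ, smul_eq_mul]
  have htot : Fintype.card V * ∑ φ : G ≃g G, (A.filter (fun x => φ x ∈ B)).card =
      A.card * B.card * Fintype.card (G ≃g G) := by
    have h1 : ∀ φ : G ≃g G, (A.filter (fun x => φ x ∈ B)).card =
        ∑ x ∈ A, ∑ y ∈ B, if φ x = y then 1 else 0 := by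
      intro φ
      rw [Finset.card_filter]
      refine Finset.sum_congr rfl fun x _ => ?_
      rw [Finset.sum_ite_eq]
    simp only [h1]
    rw [Finset.sum_comm, Finset.mul_sum]
    have h2 : ∀ x ∈ A, Fintype.card V * ∑ φ : G ≃g G, ∑ y ∈ B, (if φ x = y then 1 else 0) =
        B.card * Fintype.card (G ≃g G) := by
      intro x _
      rw [Finset.sum_comm, Finset.mul_sum]
      have h3 : ∀ y ∈ B, Fintype.card V * ∑ φ : G ≃g G, (if φ x = y then 1 else 0) =
          Fintype.card (G ≃g G) := by
        intro y _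
        rw [← Finset.card_filter]
        exact hsum x y
      rw [Finset.sum_congr rfl h3, Finset.sum_const, smul_eq_mul]
    rw [Finset.sum_congr rfl h2, Finset.sum_const, smul_eq_mul]
    ring
  by_contra hcon
  push Not at hcon
  have hne : (Finset.univ : Finset (G ≃g G)).Nonempty := ⟨SimpleGraph.Iso.refl, Finset.mem_univ _⟩
  have h4 : ∑ φ : G ≃g G, Fintype.card V * (A.filter (fun x => φ x ∈ B)).card <
      ∑ _φ : G ≃g G, A.card * B.card :=
    Finset.sum_lt_sum_of_nonempty hne fun φ _ => hcon φ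
  rw [← Finset.mul_sum, htot, Finset.sum_const, Finset.card_univ, smul_eq_mul] at h4
  have h5 : A.card * B.card * Fintype.card (G ≃g G) = Fintype.card (G ≃g G) * (A.card * B.card) := by
    ring
  omega

/-- the largest cycle -/
lemma big_cycle (hmass : MassStatement.{u}) (henum : EnumStatement.{u}) {G H : SimpleGraph V}
    (hcf : CF G H) (N : ℕ) (hN : ncyc H ≤ N) (hp : 1 ≤ (cov H).card) :
    ∃ P, Cyc G P ∧ (cov H).card ≤ N * P.length := by
  have hm := hmass V H
  have hne : (cycs H).Nonempty := by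
    obtain ⟨v, hv⟩ := Finset.card_pos.1 hp
    exact ⟨cyc H v, Finset.mem_image_of_mem _ hv⟩
  obtain ⟨S, hS, hmax⟩ := Finset.exists_max_image (cycs H) Finset.card hne
  obtain ⟨v, hv, rfl⟩ := Finset.mem_image.1 hS
  obtain ⟨c, hc, hcm⟩ := henum V G H hcf v hv
  obtain ⟨a0, b0, ha0, hb0, hab0⟩ := hc.2.2
  refine ⟨c, ⟨⟨hc.1.1, hc.1.2.1.imp fun a b hab => hcf.le hab, hc.1.2.2⟩, hc.2.1,
    a0, b0, ha0, hb0, hcf.le hab0⟩, ?_⟩
  have h1 : c.length = (cyc H v).card := by
    rw [← List.toFinset_card_of_nodup hc.1.2.2]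
    congr 1
    ext w
    rw [List.mem_toFinset, hcm w]
    simp [cyc]
  rw [h1, ← hm]
  calc ∑ S ∈ cycs H, S.card ≤ ∑ _S ∈ cycs H, (cyc H v).card := Finset.sum_le_sum hmax
    _ = ncyc H * (cyc H v).card := by rw [Finset.sum_const, smul_eq_mul]; rfl
    _ ≤ N * (cyc H v).card := Nat.mul_le_mul_right _ hN

lemma mass_ge (hmass : MassStatement.{u}) {H : SimpleGraph V} {l : ℕ}
    (hl : ∀ v ∈ cov H, l ≤ (cyc H v).card) : ncyc H * l ≤ (cov H).card := by
  rw [← hmass V H]
  have h1 : ∀ S ∈ cycs H, l ≤ S.card := by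
    intro S hS
    obtain ⟨v, hv, rfl⟩ := Finset.mem_image.1 hS
    exact hl v hv
  calc ncyc H * l = ∑ _S ∈ cycs H, l := by rw [Finset.sum_const, smul_eq_mul]; rfl
    _ ≤ _ := Finset.sum_le_sum h1

/-- volume of the middle part of the neighbourhood of a geodesic -/
lemma volume {G : SimpleGraph V} {r w D : ℕ} {γ : ℕ → V} (hO : OneDim G r w D γ)
    (hball : ∀ x r, (bl G x r).card = bn G r) (lo m : ℕ) (hlo : 15 * w ≤ lo)
    (hD : lo + w * m + 16 * w ≤ D) :
    m * bn G r ≤ ((om G γ w D).filter (fun x => lo ≤ G.dist (γ 0) x ∧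
      G.dist (γ 0) x ≤ lo + w * (m + 1))).card := by
  have hw := hO.w_eq
  have hmono : ∀ k < m, w * k + w ≤ w * m := fun k hk => by
    have : w * (k + 1) ≤ w * m := Nat.mul_le_mul_left w (by omega)
    have h2 : w * (k + 1) = w * k + w := by ring
    omega
  have hexp : w * (m + 1) = w * m + w := by ring
  have hd0 : ∀ k < m, G.dist (γ 0) (γ (lo + w + w * k)) = lo + w + w * k := fun k hk => by
    have := hmono k hk
    rw [hO.geo 0 (lo + w + w * k) (Nat.zero_le _) (by omega)]
    omega
  have hsub : (Finset.range m).biUnion (fun k => bl G (γ (lo + w + w * k)) r) ⊆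
      (om G γ w D).filter (fun x => lo ≤ G.dist (γ 0) x ∧
        G.dist (γ 0) x ≤ lo + w * (m + 1)) := by
    intro x hx
    rw [Finset.mem_biUnion] at hx
    obtain ⟨k, hk, hxk⟩ := hx
    rw [Finset.mem_range] at hk
    have hxr : G.dist (γ (lo + w + w * k)) x ≤ r := by simpa [bl] using hxk
    have h1 := hmono k hk
    have h2 := hd0 k hk
    have h3 := hO.vt.conn.dist_triangle (u := γ 0) (v := γ (lo + w + w * k)) (w := x)
    have h4 := hO.vt.conn.dist_triangle (u := γ 0) (v := x) (w := γ (lo + w + w * k))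
    rw [SimpleGraph.dist_comm (u := x)] at h4
    rw [Finset.mem_filter]
    refine ⟨?_, by omega, by omega⟩
    rw [om, Finset.mem_filter]
    refine ⟨Finset.mem_univ _, lo + w + w * k, by omega, by omega, ?_⟩
    rw [SimpleGraph.dist_comm]
    omega
  refine le_trans (le_of_eq ?_) (Finset.card_le_card hsub)
  rw [Finset.card_biUnion]
  · simp only [hball, Finset.sum_const, Finset.card_range, smul_eq_mul]
  · intro k hk k' hk' hkk
    rw [Function.onFun, Finset.disjoint_left]
    intro x hx hx'
    have hx1 : G.dist (γ (lo + w + w * k)) x ≤ r := by simpa [bl] using hx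
    have hx2 : G.dist (γ (lo + w + w * k')) x ≤ r := by simpa [bl] using hx'
    rw [Finset.mem_coe, Finset.mem_range] at hk hk'
    have key : ∀ i j, i < j → i < m → j < m → G.dist (γ (lo + w + w * i)) x ≤ r →
        G.dist (γ (lo + w + w * j)) x ≤ r → False := by
      intro i j hij hi hj h1 h2
      have h3 := hO.vt.conn.dist_triangle (u := γ (lo + w + w * i)) (v := x)
        (w := γ (lo + w + w * j))
      rw [SimpleGraph.dist_comm (u := x)] at h3
      have h5 : w * i + w ≤ w * j := by
        have : w * (i + 1) ≤ w * j := Nat.mul_le_mul_left w (by omega)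
        have h2 : w * (i + 1) = w * i + w := by ring
        omega
      have h6 := hmono j hj
      rw [hO.geo _ _ (by omega) (by omega)] at h3
      omega
    rcases lt_or_gt_of_ne hkk with h | h
    · exact key k k' h hk hk' hx1 hx2
    · exact key k' k h hk' hk hx2 hx1

/-- numerical part -/
lemma num (b w l κ : ℕ) (hw : 1 ≤ w) (hwb : w ≤ 2 * b) (hκ : κ * w ≤ 32 * b)
    (hl : 2 ^ 25 * b ^ 3 ≤ l * w ^ 2) :
    8 * ((30 * (4 * κ ^ 2 + 3) + 4) * (32 * b)) + 8 ≤ l := by
  have h1 : (κ * w) ^ 2 ≤ (32 * b) ^ 2 := Nat.pow_le_pow_left hκ 2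
  have h2 : w ^ 2 ≤ (2 * b) ^ 2 := Nat.pow_le_pow_left hwb 2
  have hb : 1 ≤ b := by omega
  have hb2 : b ≤ b ^ 2 := by nlinarith
  have hb3 : b ^ 2 ≤ b ^ 3 := Nat.pow_le_pow_right hb (by norm_num)
  have h3 : (8 * ((30 * (4 * κ ^ 2 + 3) + 4) * (32 * b)) + 8) * w ^ 2 =
      30720 * b * (κ * w) ^ 2 + 24064 * b * w ^ 2 + 8 * w ^ 2 := by ring
  have h4 : 30720 * b * (κ * w) ^ 2 ≤ 30720 * b * (32 * b) ^ 2 := Nat.mul_le_mul_left _ h1
  have h5 : 24064 * b * w ^ 2 ≤ 24064 * b * (2 * b) ^ 2 := Nat.mul_le_mul_left _ h2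
  have h6 : 30720 * b * (32 * b) ^ 2 = 31457280 * b ^ 3 := by ring
  have h7 : 24064 * b * (2 * b) ^ 2 = 96256 * b ^ 3 := by ring
  have h8 : (2 * b) ^ 2 = 4 * b ^ 2 := by ring
  have h9 : (8 * ((30 * (4 * κ ^ 2 + 3) + 4) * (32 * b)) + 8) * w ^ 2 ≤ l * w ^ 2 := by
    rw [h3]
    refine le_trans ?_ hl
    norm_num
    omega
  exact Nat.le_of_mul_le_mul_right h9 (by positivity)

theorem endc (hblock : BlockStatement.{u}) (hring : RingStatement.{u}) (hchainc : ChaincStatement.{u})
    (homega : OmegaStatement.{u}) (hling : LingStatement.{u}) (hgeo : GeoStatement.{u})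
    (hbase : BaseStatement.{u}) (hopt : OptStatement.{u}) (hmass : MassStatement.{u})
    (henum : EnumStatement.{u}) : EndcStatement.{u} := by
  refine ⟨2 ^ 25, ?_⟩
  intro V _ G H hG D hD r w l hw hlin hDw hH hl hp
  obtain ⟨hball, _, _, hb0, hbmono, _, _⟩ := hbase V G hG
  have hcf := hH.1
  have hlong : ∀ v ∈ cov H, l ≤ (cyc H v).card := fun v hv => (((hopt V G l).2 H hH).1 v hv).1
  have hw1 : 1 ≤ w := by omega
  set b := bn G r with hb
  obtain ⟨v0, hv0⟩ := Finset.card_pos.1 hp
  obtain ⟨γ0, hγ00, hγ0⟩ := (hgeo V G hG D hD).2 D 0 le_rfl (Nat.zero_le _) v0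
  -- `r + 1 ≤ b`
  have hrb : r + 1 ≤ b := by
    rw [hb, ← hball (γ0 0) r]
    have h1 : (Finset.range (r + 1)).image γ0 ⊆ bl G (γ0 0) r := by
      intro x hx
      rw [Finset.mem_image] at hx
      obtain ⟨i, hi, rfl⟩ := hx
      rw [Finset.mem_range] at hi
      simp only [bl, Finset.mem_filter, Finset.mem_univ, true_and]
      rw [hγ0 0 i (Nat.zero_le _) (by omega)]
      omega
    refine le_trans (le_of_eq ?_) (Finset.card_le_card h1)
    rw [Finset.card_image_of_injOn, Finset.card_range]
    intro i hi j hj hij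
    rw [Finset.mem_coe, Finset.mem_range] at hi hj
    have h2 := hγ0 (min i j) (max i j) (min_le_max) (by omega)
    have h3 : G.dist (γ0 (min i j)) (γ0 (max i j)) = 0 := by
      rcases le_total i j with h | h
      · rw [min_eq_left h, max_eq_right h, hij]; exact SimpleGraph.dist_self
      · rw [min_eq_right h, max_eq_left h, hij]; exact SimpleGraph.dist_self
    omega
  have hwb : w ≤ 2 * b := by omega
  obtain ⟨κ, hκ⟩ : ∃ κ, κ = 32 * b / w := ⟨_, rfl⟩
  have hκw : κ * w ≤ 32 * b := by rw [hκ]; exact Nat.div_mul_le_self _ _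
  have hnum := num b w l κ hw1 hwb hκw hl
  set M := 4 * κ ^ 2 + 3 with hM
  by_cases hN : ncyc H ≤ 50000
  · obtain ⟨P, hP1, hP2⟩ := big_cycle hmass henum hcf 50000 hN hp
    refine ⟨P, hP1, hP2.trans (Nat.mul_le_mul_right _ (by norm_num))⟩
  · -- `D` is large
    have hn : (cov H).card ≤ Fintype.card V := by
      rw [← Finset.card_univ]; exact Finset.card_le_card (Finset.subset_univ _)
    have h1 : 50000 * l ≤ Fintype.card V :=
      le_trans (Nat.mul_le_mul_right l (by omega : 50000 ≤ ncyc H))
        ((mass_ge hmass hlong).trans hn)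
    have h2 := hling V G hG D hD r w hw hlin hDw
    rw [← hb] at h2
    have hL : 3840 * (M * w) ≤ D := by
      have h3 : w * (50000 * (7680 * (M * b))) ≤ 100000 * D * b :=
        calc w * (50000 * (7680 * (M * b))) ≤ w * (50000 * l) := by
              refine Nat.mul_le_mul_left w (Nat.mul_le_mul_left 50000 (le_trans ?_ hnum))
              have h6 : 8 * ((30 * M + 4) * (32 * b)) + 8 = 7680 * (M * b) + 1024 * b + 8 := by ring
              omega
          _ ≤ w * Fintype.card V := Nat.mul_le_mul_left w h1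
          _ ≤ 100000 * D * b := h2
      have h4 : (100000 * b) * (3840 * (M * w)) ≤ (100000 * b) * D := by
        have h5 : (100000 * b) * (3840 * (M * w)) = w * (50000 * (7680 * (M * b))) := by ring
        have h6 : (100000 * b) * D = 100000 * D * b := by ring
        rw [h5, h6]; exact h3
      exact Nat.le_of_mul_le_mul_left h4 (by omega)
    have hMw3 : 3 * w ≤ M * w := Nat.mul_le_mul_right w (by omega)
    -- number of blocks
    obtain ⟨L, hLdef⟩ : ∃ L, L = 30 * (M * w) := ⟨_, rfl⟩
    obtain ⟨q, hq⟩ : ∃ q, q = (D - 310 * w) / L := ⟨_, rfl⟩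
    have hLpos : 0 < L := by omega
    have hLw : 90 * w ≤ L := by omega
    have hLD : 128 * L ≤ D := by omega
    have hq1 : q * L ≤ D - 310 * w := by rw [hq]; exact Nat.div_mul_le_self _ _
    have hq2 : D - 310 * w < q * L + L := by
      have := Nat.lt_mul_div_succ (D - 310 * w) hLpos
      rw [← hq] at this
      have h7 : L * (q + 1) = q * L + L := by ring
      omega
    have hq3 : 11 ≤ q := by
      by_contra hcon
      have h8 : q * L ≤ 10 * L := Nat.mul_le_mul_right L (by omega)
      omega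
    obtain ⟨S, hS⟩ : ∃ S, q = S + 1 := ⟨q - 1, by omega⟩
    have hSL : q * L = S * L + L := by rw [hS]; ring
    obtain ⟨S', hS'⟩ : ∃ S', S = S' + 1 := ⟨S - 1, by omega⟩
    have hSL' : S * L = S' * L + L := by rw [hS']; ring
    have hS8 : 8 * L ≤ S' * L := Nat.mul_le_mul_right L (by omega)
    -- the number `m` of disjoint balls
    obtain ⟨m, hm⟩ : ∃ m, 30 * M * S' = m + 1 := by
      refine ⟨30 * M * S' - 1, ?_⟩
      have : 1 ≤ 30 * M * S' := by
        have h9 : 1 ≤ S' := by omega
        have h10 : 1 ≤ 30 * M := by omega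
        nlinarith
      omega
    have hmw : w * (m + 1) = S' * L := by
      rw [← hm, hLdef]; ring
    have hmw' : w * (m + 1) = w * m + w := by ring
    -- averaging
    have hO0 : OneDim G r w D γ0 := ⟨hG, hw, hlin, hγ0, hDw⟩
    have hvol := volume hO0 hball (210 * w + L) m (by omega) (by omega)
    rw [← hb] at hvol
    set A := (om G γ0 w D).filter (fun x => 210 * w + L ≤ G.dist (γ0 0) x ∧
      G.dist (γ0 0) x ≤ 210 * w + L + w * (m + 1)) with hA
    obtain ⟨φ, hφ⟩ := average hG A (cov H)
    have hdist := reach_iso φ hG.conn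
    let γ : ℕ → V := fun i => φ (γ0 i)
    have hO : OneDim G r w D γ := ⟨hG, hw, hlin, fun i j hij hj => by
      rw [hdist]; exact hγ0 i j hij hj, hDw⟩
    -- the number of vertices and `A`
    have hlow : Fintype.card V ≤ 200000 * A.card := by
      have h12 : D ≤ 2 * (w * m) := by omega
      have h13 : w * Fintype.card V ≤ w * (200000 * A.card) :=
        calc w * Fintype.card V ≤ 100000 * D * b := h2
          _ ≤ 100000 * (2 * (w * m)) * b := by
              exact Nat.mul_le_mul_right _ (Nat.mul_le_mul_left _ h12)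
          _ = w * (200000 * (m * b)) := by ring
          _ ≤ w * (200000 * A.card) := Nat.mul_le_mul_left w (Nat.mul_le_mul_left 200000 hvol)
      exact Nat.le_of_mul_le_mul_left h13 (by omega)
    have hApos : 0 < A.card := by
      rcases Nat.eq_zero_or_pos A.card with h | h
      · rw [h] at hlow
        have : 0 < Fintype.card V := Fintype.card_pos_iff.2 ⟨v0⟩
        omega
      · exact h
    -- the windows
    have hwin : ∀ s, ∃ a', s ≤ S → 210 * w + s * L ≤ a' ∧ a' + 30 * w ≤ 210 * w + s * L + L ∧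
        ∀ x ∈ cov H, ∀ y ∈ cov H, x ∈ om G γ w D → y ∈ om G γ w D →
          a' + 5 * w ≤ G.dist (γ 0) x → G.dist (γ 0) x ≤ a' + 25 * w →
          a' + 5 * w ≤ G.dist (γ 0) y → G.dist (γ 0) y ≤ a' + 25 * w → H.Reachable x y := by
      intro s
      by_cases hs : s ≤ S
      · have hsL : s * L ≤ S * L := Nat.mul_le_mul_right L hs
        have hML : 30 * M * w = L := by rw [hLdef]; ring
        obtain ⟨a', h1, h2, h3⟩ := hblock V G H r w D γ l κ (210 * w + s * L) hO hH
          (by rw [hκ]) (by
            rw [← hb]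
            have h6 : 4 * (30 * (4 * κ ^ 2 + 3) + 4) * (32 * b) = 4 * ((30 * M + 4) * (32 * b)) := by
              rw [hM]; ring
            rw [h6]
            omega) (by omega) (by
            change 210 * w + s * L + 30 * M * w + 20 * w ≤ D
            omega)
        refine ⟨a', fun _ => ⟨h1, ?_, h3⟩⟩
        have h7 : a' + 30 * w ≤ 210 * w + s * L + 30 * M * w := h2
        omega
      · exact ⟨0, fun h => absurd h hs⟩
    choose τ hτ using hwin
    have hS1 : 1 ≤ S := by omega
    have hτ0 := (hτ 0 (by omega)).1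
    have hτ0' := (hτ 0 (by omega)).2.1
    have hτS := (hτ S le_rfl).1
    have hτS' := (hτ S le_rfl).2.1
    -- the path outside
    obtain ⟨Q, hQ1, hQ2, hQ3, hQ4⟩ := hring V G r w D γ (200 * w) (260 * w + q * L) hO hD (by omega)
      le_rfl (by omega) (by omega)
    -- the covered vertices in the middle part
    have hmid : (A.filter (fun x => φ x ∈ cov H)).card ≤
        ((cov H).filter (fun x => x ∈ om G γ w D ∧ τ 0 + 30 * w ≤ G.dist (γ 0) x ∧
          G.dist (γ 0) x ≤ τ S)).card := by
      refine Finset.card_le_card_of_injOn φ ?_ φ.injective.injOn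
      intro x hx
      rw [Finset.mem_coe, Finset.mem_filter, hA, Finset.mem_filter, om, Finset.mem_filter] at hx
      obtain ⟨⟨⟨_, t, ht1, ht2, ht3⟩, hx1, hx2⟩, hx3⟩ := hx
      rw [Finset.mem_coe, Finset.mem_filter]
      have hdx : G.dist (γ 0) (φ x) = G.dist (γ0 0) x := hdist _ _
      refine ⟨hx3, ?_, ?_, ?_⟩
      · rw [om, Finset.mem_filter]
        exact ⟨Finset.mem_univ _, t, ht1, ht2, by rw [hdist]; exact ht3⟩
      · rw [hdx]; omega
      · rw [hdx]; omega
    have hone : 1 ≤ ((cov H).filter (fun x => x ∈ om G γ w D ∧ τ 0 + 30 * w ≤ G.dist (γ 0) x ∧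
          G.dist (γ 0) x ≤ τ S)).card := by
      refine le_trans ?_ hmid
      by_contra hcon
      have h0 : (A.filter (fun x => φ x ∈ cov H)).card = 0 := by omega
      rw [h0, Nat.mul_zero] at hφ
      have h1' : 0 < A.card * (cov H).card := Nat.mul_pos hApos (by omega)
      omega
    obtain ⟨P, hP1, hP2⟩ := hchainc V G H r w D γ S τ l (200 * w) (260 * w + q * L) Q hO hcf hlong
      hS1 (by omega) (by omega) (by omega) (by omega) (by
        intro s hs
        have h1 := (hτ s hs.le).2.1
        have h2 := (hτ (s + 1) hs).1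
        have h3 : (s + 1) * L = s * L + L := by ring
        omega) hQ1 hQ2 hQ3 hQ4 (by
        intro s hs
        have h1 := (hτ s hs.le).1
        have h2 := (hτ (s + 1) hs).2.1
        have h3 : (s + 1) * L = s * L + L := by ring
        have h1' := (hτ s hs.le).2.1
        have h2' := (hτ (s + 1) hs).1
        have h4 := (homega V G r w D γ hO).2.1 (τ s) (τ (s + 1) + 30 * w) (by omega)
        rw [← hb] at h4
        have h5 : (τ (s + 1) + 30 * w - τ s + 4 * w) * (32 * b) ≤
            w * ((60 * M + 4) * (32 * b)) := by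
          have h6 : w * ((60 * M + 4) * (32 * b)) = (2 * L + 4 * w) * (32 * b) := by
            rw [hLdef]; ring
          rw [h6]
          exact Nat.mul_le_mul_right _ (by omega)
        have h7 := Nat.le_of_mul_le_mul_left (h4.trans h5) (by omega)
        have h8 : (60 * M + 4) * (32 * b) * 3 < l := by
          have h9 : (60 * M + 4) * (32 * b) * 3 + 640 * b ≤ 8 * ((30 * M + 4) * (32 * b)) := by
            have h10 : 8 * ((30 * M + 4) * (32 * b)) =
              (60 * M + 4) * (32 * b) * 3 + (60 * M + 20) * (32 * b) := by ring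
            rw [h10]
            have h11 : 20 * (32 * b) ≤ (60 * M + 20) * (32 * b) :=
              Nat.mul_le_mul_right _ (by omega)
            omega
          omega
        exact lt_of_le_of_lt (Nat.mul_le_mul_right 3 h7) h8) (by
        intro s hs
        exact (hτ s hs).2.2) hone
    refine ⟨P, hP1, ?_⟩
    have hfin : A.card * (cov H).card ≤ A.card * (1600000 * P.length) :=
      calc A.card * (cov H).card ≤ Fintype.card V * (A.filter (fun x => φ x ∈ cov H)).card := hφ
        _ ≤ (200000 * A.card) * (8 * P.length) := Nat.mul_le_mul hlow (hmid.trans hP2)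
        _ = A.card * (1600000 * P.length) := by ring
    have h14 := Nat.le_of_mul_le_mul_left hfin hApos
    exact h14.trans (Nat.mul_le_mul_right _ (by norm_num))

end Pool.Agent.Lib.MP_688fd0_co.LIN.H61
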